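import Pool.Agent.Lib.MP_9ab704_lc.QFComp

namespace Pool.Agent.Results.MP_9ab704_lc.FunctionalityUndecidable

open Pool.Agent.Lib.MP_9ab704_lc

/-- Concept satisfiability relative to circumscribed DL-Lite_bool^F knowledge bases (with minimized
roles) is undecidable. -/
theorem result : ¬ SatDecidable Input.InF :=
  QF.not_satDecidable

end Pool.Agent.Results.MP_9ab704_lc.FunctionalityUndecidable
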