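import Pool.Agent.Lib.MP_9ab704_lc.Undec

namespace Pool.Agent.Results.MP_9ab704_lc.RoleInclusionsUndecidable

open Pool.Agent.Lib.MP_9ab704_lc

/-- Concept satisfiability relative to circumscribed DL-Lite_bool^R knowledge bases (with minimized
roles) is undecidable, even for patterns with empty preference relation. -/
theorem result : ¬ SatDecidable fun x => x.InR ∧ x.prec = [] :=
  QR.not_satDecidable

end Pool.Agent.Results.MP_9ab704_lc.RoleInclusionsUndecidable
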